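import Pool.Agent.W312.WT.Final

/-!
# MP_df8bb0_lc: P2 | pmtn, p_j = p | sum w_j T_j is solvable in polynomial time

The problem asks for constant `p`; the algorithm is polynomial even if `p` is part of the input.

Idea of the proof. Let the jobs complete in the order `1, …, n` at the times `C 1 ≤ … ≤ C n`, and
`C 0 = 0`. Then `C s + C (s + 1) ≥ (s + 1) * p` for all `s`. Conversely all times with this property
and `C (s + 1) ≤ C s + p` are the completion times of a schedule with at most two pieces for every
job (`ChnT`), so the problem is to choose an order and such times.

(a) Rounding. Call the residues modulo `p` of `0`, `d j`, `- d j` the lattice. An optimal choice has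
all times in the lattice: the real times are rounded to neighbours in the lattice with one common
random threshold `θ`, where the residues `x` and `- x` are rounded antithetically, so that the
inequalities remain true for all `θ`, while the expected cost is the original one, because the cost
is linear between neighbours in the lattice. So there are only `O(n ^ 2)` candidate times.

(b) Decomposition (in the style of Lawler's algorithm for one machine). Let `x` be a job of smallest
weight. For given times some optimal order has the property that, for a suitable threshold `D`, the
jobs which complete before `x` are exactly the other jobs with due dates at most `D`. So the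
subproblems have again the same form: all jobs of the first weights with due dates in an interval,
positions `s + 1, …, s'`, start time and last time given. This gives a dynamic programme with
polynomially many entries (the jobs are added in the order of decreasing weights).

Proved by a team: helpers 391, 637, 368, 303, 753, 782, 366, 571, 196, 828, 359, 490, 589, 377, 298
(lower bound, rounding, explicit schedule), 376, 348, 61, 351, 688, 922, 683, 591, 701, 347, 638
(decomposition, correctness of the dynamic programme), 32, 800, 999, 315, 371, 358 (polynomial
time), 312 (algorithm, proof on paper, definitions, assembly).
-/

set_option autoImplicit false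

namespace Pool.Agent.Results.MP_df8bb0_lc.TwoMachineWeightedTardiness

open Pool.Agent.NPC Pool.Agent.W312.WT

/-- (1) The decision problem `P2 | pmtn, p_j = p | sum w_j T_j` is in `P`, where the common length
`p ≥ 1` of the jobs is part of the input: given `p`, the list `L` of the weights and due dates of the
jobs, and a bound, decide whether there is a preemptive schedule with total weighted tardiness at
most the bound. (2) So is the problem for every fixed `p ≥ 1`. (3) There is a polynomial-time
algorithm which computes from `p` and `L` the minimum `v` of the total weighted tardiness and an
optimal preemptive schedule `S`, which is better than or equal to all preemptive schedules with real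
times; it has at most two pieces for every job, and all its pieces start and end at integers. -/
theorem result :
    InPP (fun I : ℕ × List (ℕ × ℕ) × ℕ =>
      1 ≤ I.1 ∧ ∃ S : Sched I.1 I.2.1.length, S.cost I.2.1 ≤ (I.2.2 : ℝ)) ∧
    (∀ p : ℕ, 1 ≤ p → InPP (fun I : List (ℕ × ℕ) × ℕ =>
      ∃ S : Sched p I.1.length, S.cost I.1 ≤ (I.2 : ℝ))) ∧
    ∃ A : List Bool → List Bool, PolyTime A ∧ ∀ (p : ℕ) (L : List (ℕ × ℕ)), 1 ≤ p →
      ∃ (v : ℕ) (out : List (List (Bool × ℕ × ℕ))) (S : Sched p L.length),
        A (bits (p, L)) = bits (v, out) ∧
        (∀ (j : Fin L.length) (q : Bool × ℝ × ℝ), q ∈ S.pieces j ↔
          ∃ r ∈ out.getD j [], castP r = q) ∧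
        (∀ j, (S.pieces j).card ≤ 2) ∧ S.cost L = (v : ℝ) ∧
        ∀ S' : Sched p L.length, S.cost L ≤ S'.cost L :=
  final

end Pool.Agent.Results.MP_df8bb0_lc.TwoMachineWeightedTardiness
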